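import Pool.Agent.Lib_helper5.TC.Main

/-!
# Forward paths and promotion: definitions
-/

set_option autoImplicit false

namespace Pool.Agent.Lib_helper27.TP

open Pool.Agent.Lib_helper5.TC

/-- fillings of the box -/
abbrev Fill (m n : ℕ) : Type := Cell m n ≃ Fin ((m + 1) * (n + 1))

/-- `p` is the forward path of `T`: it starts in the first cell and always goes on to the
neighbour with the smaller value -/
def Fwd {m n : ℕ} (T : Fill m n) (p : Fin (m + n + 1) → Cell m n) : Prop :=
  IsPath p ∧ ∀ k : Fin (m + n), ∀ u, Step (p k.castSucc) u → T (p k.succ) ≤ T u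

/-- standard fillings with forward path `p` -/
abbrev V {m n : ℕ} (p : Fin (m + n + 1) → Cell m n) : Type :=
  {T : Fill m n // IsSYT T ∧ Fwd T p}

/-- `T'` is the promotion of `T` along `p`: the value `0` leaves, all entries on `p` move one
step back along `p`, all values decrease by one, the largest value enters in the last cell -/
def Prom {m n : ℕ} (T : Fill m n) (p : Fin (m + n + 1) → Cell m n) (T' : Fill m n) : Prop :=
  (∀ k : Fin (m + n), (T' (p k.castSucc)).val + 1 = (T (p k.succ)).val) ∧
    (T' (Fin.last m, Fin.last n)).val + 1 = (m + 1) * (n + 1) ∧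
    ∀ q, (∀ k, p k ≠ q) → (T' q).val + 1 = (T q).val

end Pool.Agent.Lib_helper27.TP
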