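import Pool.Agent.Lib_helper27.TP.Cross
import Pool.Agent.Lib_helper27.TP.Defs

/-!
# From paths and fillings to arrays
-/

set_option autoImplicit false

namespace Pool.Agent.Lib_helper27.TP

open Pool.Agent.Lib_helper5.TC

variable {m n : ℕ}

/-- the columns in which a path changes its row -/
theorem path_cols {p : Fin (m + n + 1) → Cell m n} (hp : IsPath p) :
    ∃ c : ℕ → ℕ, c 0 = 0 ∧ c (m + 1) = n ∧ (∀ i, i ≤ m → c i ≤ c (i + 1)) ∧
      ∀ i, i ≤ m + 1 → ∀ k, (p k).1.val < i ↔ k.val < c i + i := by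
  classical
  set R : ℕ → ℕ := fun k => if h : k < m + n + 1 then (p ⟨k, h⟩).1.val else m + 1 with hR
  have hRk : ∀ k : Fin (m + n + 1), R k.val = (p k).1.val := fun k => by
    rw [hR]
    show (if h : k.val < m + n + 1 then (p ⟨k.val, h⟩).1.val else m + 1) = _
    rw [dif_pos k.isLt]
  have hRb : ∀ k, m + n < k → R k = m + 1 := fun k hk => by
    rw [hR]
    show (if h : k < m + n + 1 then (p ⟨k, h⟩).1.val else m + 1) = _
    rw [dif_neg (by omega)]
  have hR0 : R 0 = 0 := by
    have := hRk 0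
    rw [hp.1] at this
    exact this
  have hRm : R (m + n) = m := by
    have := hRk (Fin.last (m + n))
    rw [hp.2.1] at this
    exact this
  have hstep : ∀ k, R k ≤ R (k + 1) ∧ R (k + 1) ≤ R k + 1 := by
    intro k
    rcases Nat.lt_trichotomy k (m + n) with h | h | h
    · have h1 := hRk (Fin.castSucc ⟨k, h⟩)
      have h2 := hRk (Fin.succ ⟨k, h⟩)
      have h3 := hp.2.2 ⟨k, h⟩
      unfold Step at h3
      have h1' : R k = (p (Fin.castSucc ⟨k, h⟩)).1.val := h1
      have h2' : R (k + 1) = (p (Fin.succ ⟨k, h⟩)).1.val := h2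
      omega
    · rw [h, hRm, hRb _ (by omega)]
      omega
    · rw [hRb _ h, hRb _ (by omega)]
      omega
  have hmono : ∀ k l, k ≤ l → R k ≤ R l := fun k l hkl => monotone_nat_of_le_succ
    (fun k => (hstep k).1) hkl
  have hle : ∀ k, R k ≤ k := by
    intro k
    induction k with
    | zero => rw [hR0]
    | succ k ih => exact (hstep k).2.trans (by omega)
  have hex : ∀ i, ∃ k, i ≤ m + 1 → i ≤ R k := fun i =>
    ⟨m + n + 1, fun hi => by rw [hRb _ (by omega)]; exact hi⟩
  set idx : ℕ → ℕ := fun i => Nat.find (hex i) with hidx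
  have hspec : ∀ i, i ≤ m + 1 → i ≤ R (idx i) := fun i hi => Nat.find_spec (hex i) hi
  have hmin : ∀ i k, k < idx i → R k < i := fun i k hk => by
    have := Nat.find_min (hex i) hk
    by_contra hc
    exact this fun _ => not_lt.mp hc
  have hiff : ∀ i k, i ≤ m + 1 → (R k < i ↔ k < idx i) := by
    intro i k hi
    refine ⟨fun h => ?_, hmin i k⟩
    by_contra hc
    have h1 := hmono _ _ (not_lt.mp hc)
    have h2 := hspec i hi
    omega
  have heq : ∀ i, i ≤ m + 1 → R (idx i) = i := by
    intro i hi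
    refine le_antisymm ?_ (hspec i hi)
    rcases Nat.eq_zero_or_pos (idx i) with h | h
    · rw [h, hR0]
      omega
    · have h1 := hmin i (idx i - 1) (by omega)
      have h2 := (hstep (idx i - 1)).2
      rw [Nat.sub_add_cancel h] at h2
      omega
  have hge : ∀ i, i ≤ m + 1 → i ≤ idx i := fun i hi => by
    have := hle (idx i)
    rw [heq i hi] at this
    exact this
  refine ⟨fun i => idx i - i, ?_, ?_, fun i hi => ?_, fun i hi k => ?_⟩
  · show idx 0 - 0 = 0
    have h1 : ¬ 0 < idx 0 := fun h => by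
      have := hmin 0 0 h
      omega
    omega
  · show idx (m + 1) - (m + 1) = n
    have h1 : m + n < idx (m + 1) := (hiff _ _ le_rfl).1 (by rw [hRm]; omega)
    have h2 : ¬ m + n + 1 < idx (m + 1) := fun h => by
      have := hmin _ _ h
      rw [hRb _ (by omega)] at this
      omega
    omega
  · show idx i - i ≤ idx (i + 1) - (i + 1)
    have h1 : idx i < idx (i + 1) := (hiff _ _ (by omega)).1 (by rw [heq i (by omega)]; omega)
    have h2 := hge i (by omega)
    omega
  · show _ ↔ k.val < idx i - i + i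
    rw [← hRk k, hiff i k.val hi]
    have h2 := hge i hi
    omega

/-- the columns of a path, as a function -/
noncomputable def cols (p : Fin (m + n + 1) → Cell m n) : ℕ → ℕ := by
  classical
  exact if h : IsPath p then (path_cols h).choose else fun _ => 0

structure Cols (p : Fin (m + n + 1) → Cell m n) (c : ℕ → ℕ) : Prop where
  c0 : c 0 = 0
  cm : c (m + 1) = n
  mono : ∀ i, i ≤ m → c i ≤ c (i + 1)
  iff : ∀ i, i ≤ m + 1 → ∀ k, (p k).1.val < i ↔ k.val < c i + i

theorem cols_spec {p : Fin (m + n + 1) → Cell m n} (hp : IsPath p) : Cols p (cols p) := by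
  have h : cols p = (path_cols hp).choose := by
    unfold cols
    rw [dif_pos hp]
  rw [h]
  obtain ⟨h1, h2, h3, h4⟩ := (path_cols hp).choose_spec
  exact ⟨h1, h2, h3, h4⟩

theorem Cols.mem {p : Fin (m + n + 1) → Cell m n} {c : ℕ → ℕ} (h : Cols p c) (hp : IsPath p)
    (k : Fin (m + n + 1)) : c (p k).1.val ≤ (p k).2.val ∧ (p k).2.val ≤ c ((p k).1.val + 1) := by
  have h1 := coords hp k
  have h2 := h.iff (p k).1.val (by omega) k
  have h3 := h.iff ((p k).1.val + 1) (by omega) k
  omega

theorem Cols.path {p : Fin (m + n + 1) → Cell m n} {c : ℕ → ℕ} (h : Cols p c) (hp : IsPath p)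
    {i j : ℕ} (hi : i < m + 1) (hj : j < n + 1) (h1 : c i ≤ j) (h2 : j ≤ c (i + 1))
    (k : Fin (m + n + 1)) (hk : k.val = i + j) : p k = (⟨i, hi⟩, ⟨j, hj⟩) := by
  have h3 := coords hp k
  have h4 := h.iff i (by omega) k
  have h5 := h.iff (i + 1) (by omega) k
  exact cell_eq (by omega) (by omega)

/-- the values of a filling as a function on pairs of numbers -/
def vl (T : Fill m n) (i j : ℕ) : ℕ :=
  if h : i < m + 1 ∧ j < n + 1 then (T (⟨i, h.1⟩, ⟨j, h.2⟩)).val else 0

theorem vl_eq (T : Fill m n) {i j : ℕ} (hi : i < m + 1) (hj : j < n + 1) :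
    vl T i j = (T (⟨i, hi⟩, ⟨j, hj⟩)).val := by
  unfold vl
  rw [dif_pos ⟨hi, hj⟩]

theorem vl_cell (T : Fill m n) (a : Cell m n) : vl T a.1.val a.2.val = (T a).val :=
  vl_eq T a.1.isLt a.2.isLt

theorem vl_lt (T : Fill m n) (i j : ℕ) : vl T i j < (m + 1) * (n + 1) := by
  unfold vl
  split_ifs with h
  · exact (T _).isLt
  · exact Nat.mul_pos (by omega) (by omega)

theorem inc_vl {T : Fill m n} (hT : IsSYT T) : Inc m n (vl T) := by
  refine ⟨fun i j j' hi hj hj' => ?_, fun i i' j hi hi' hj => ?_⟩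
  · rw [vl_eq T (by omega) (by omega), vl_eq T (by omega) (by omega)]
    exact hT.2 _ _ _ hj
  · rw [vl_eq T (by omega) (by omega), vl_eq T (by omega) (by omega)]
    exact hT.1 _ _ _ hi

theorem vl_zero {T : Fill m n} (hT : IsSYT T) : vl T 0 0 = 0 := by
  have hL : 0 < (m + 1) * (n + 1) := Nat.mul_pos (by omega) (by omega)
  have h1 : vl T (T.symm ⟨0, hL⟩).1.val (T.symm ⟨0, hL⟩).2.val = 0 := by
    rw [vl_cell, Equiv.apply_symm_apply]
  generalize (T.symm ⟨0, hL⟩) = a at h1
  have hi := inc_vl hT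
  have h2 : vl T 0 0 ≤ vl T 0 a.2.val := hi.row_le (by omega) (by omega) (by omega)
  have h3 : vl T 0 a.2.val ≤ vl T a.1.val a.2.val := by
    rcases Nat.eq_zero_or_pos a.1.val with h | h
    · rw [h]
    · exact (hi.col 0 a.1.val a.2.val h (by omega) (by omega)).le
  omega

theorem slide_of_prom {T T' : Fill m n} {p : Fin (m + n + 1) → Cell m n} {c : ℕ → ℕ}
    (hT : IsSYT T) (hT' : IsSYT T') (hp : Fwd T p) (hP : Prom T p T') (hc : Cols p c) :
    Slide m n ((m + 1) * (n + 1)) (vl T) c (vl T') := by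
  have hcle : ∀ i, i ≤ m + 1 → c i ≤ n := fun i hi => by
    rw [← hc.cm]
    exact cmono hc.mono i (m + 1) hi le_rfl
  refine ⟨inc_vl hT, inc_vl hT', vl_zero hT, hc.c0, hc.cm, hc.mono, ?_, ?_, ?_, ?_, ?_⟩
  · intro i j hi h1 h2
    have h3 := hcle (i + 1) (by omega)
    rw [vl_eq T' (show i < m + 1 by omega) (show j < n + 1 by omega),
      vl_eq T (show i < m + 1 by omega) (show j + 1 < n + 1 by omega)]
    have h4 := hP.1 ⟨i + j, by omega⟩
    rw [hc.path hp.1 (show i < m + 1 by omega) (show j < n + 1 by omega) h1 h2.le _ rfl,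
      hc.path hp.1 (show i < m + 1 by omega) (show j + 1 < n + 1 by omega) (by omega) h2 _
        (by show i + j + 1 = i + (j + 1); omega)] at h4
    exact h4
  · intro i hi
    have h3 := hcle (i + 1) (by omega)
    rw [vl_eq T' (show i < m + 1 by omega) (show c (i + 1) < n + 1 by omega),
      vl_eq T (show i + 1 < m + 1 by omega) (show c (i + 1) < n + 1 by omega)]
    have h4 := hP.1 ⟨i + c (i + 1), by omega⟩
    rw [hc.path hp.1 (show i < m + 1 by omega) (show c (i + 1) < n + 1 by omega)
        (hc.mono i (by omega)) le_rfl _ rfl,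
      hc.path hp.1 (show i + 1 < m + 1 by omega) (show c (i + 1) < n + 1 by omega) le_rfl
        (hc.mono (i + 1) (by omega)) _ (by show i + c (i + 1) + 1 = i + 1 + c (i + 1); omega)] at h4
    exact h4
  · have := hP.2.1
    rw [vl_eq T' (show m < m + 1 by omega) (show n < n + 1 by omega)]
    exact this
  · intro i j hi hj h
    rw [vl_eq T' (show i < m + 1 by omega) (show j < n + 1 by omega),
      vl_eq T (show i < m + 1 by omega) (show j < n + 1 by omega)]
    refine hP.2.2 _ fun k hk => ?_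
    have h1 := hc.mem hp.1 k
    rw [hk] at h1
    have h2 : c i ≤ j ∧ j ≤ c (i + 1) := h1
    omega
  · intro i hi hn
    have h3 := hcle (i + 1) (by omega)
    rw [vl_eq T (show i < m + 1 by omega) (show c (i + 1) + 1 < n + 1 by omega),
      vl_eq T (show i + 1 < m + 1 by omega) (show c (i + 1) < n + 1 by omega)]
    have h4 := hp.2 ⟨i + c (i + 1), by omega⟩
      (⟨i, by omega⟩, ⟨c (i + 1) + 1, by omega⟩)
    rw [hc.path hp.1 (show i < m + 1 by omega) (show c (i + 1) < n + 1 by omega)
        (hc.mono i (by omega)) le_rfl _ rfl,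
      hc.path hp.1 (show i + 1 < m + 1 by omega) (show c (i + 1) < n + 1 by omega) le_rfl
        (hc.mono (i + 1) (by omega)) _ (by show i + c (i + 1) + 1 = i + 1 + c (i + 1); omega)] at h4
    have h5 := h4 (Or.inr ⟨rfl, rfl⟩)
    refine lt_of_le_of_ne h5 fun h6 => ?_
    have h7 := T.injective (Fin.ext h6)
    have h8 := congrArg (fun a => a.1.val) h7
    have h9 : i + 1 = i := h8
    omega

theorem fwd_uniq {T : Fill m n} {p p' : Fin (m + n + 1) → Cell m n} (h : Fwd T p)
    (h' : Fwd T p') : p = p' := by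
  funext k
  induction k using Fin.induction with
  | zero => rw [h.1.1, h'.1.1]
  | succ k ih =>
    refine T.injective (le_antisymm (h.2 k _ ?_) (h'.2 k _ ?_))
    · rw [ih]
      exact h'.1.2.2 k
    · rw [← ih]
      exact h.1.2.2 k

/-- the corner path through the lower left cell is the forward path if all comparisons are
right -/
theorem fwd_corner {T : Fill m n} {p : Fin (m + n + 1) → Cell m n} (hp : IsPath p)
    (hc : ∃ k, p k = (Fin.last m, 0)) (h : 0 < n → ∀ k, k < m → vl T (k + 1) 0 ≤ vl T k 1) :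
    Fwd T p := by
  refine ⟨hp, fun k u hu => ?_⟩
  obtain ⟨k₀, hk₀⟩ := hc
  have hcol := cols_spec hp
  have h0 : cols p m = 0 := by
    have := (hcol.mem hp k₀).1
    rw [hk₀] at this
    have h1 : cols p m ≤ 0 := this
    omega
  have hz : ∀ i, i ≤ m → cols p i = 0 := fun i hi => by
    have := cmono hcol.mono i m hi (by omega)
    omega
  have h1 := hp.2.2 k
  have h2 := hcol.mem hp k.castSucc
  have h3 := hcol.mem hp k.succ
  by_cases hu' : p k.succ = u
  · rw [hu']
  have hne : ¬ ((p k.succ).1.val = u.1.val ∧ (p k.succ).2.val = u.2.val) := fun hh =>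
    hu' (Prod.ext (Fin.ext hh.1) (Fin.ext hh.2))
  unfold Step at h1 hu
  rcases Nat.lt_or_ge (p k.castSucc).1.val m with h4 | h4
  · have h5 := hz ((p k.castSucc).1.val + 1) (by omega)
    have h6 : (p k.castSucc).2.val = 0 := by omega
    have h7 : (p k.succ).1.val = (p k.castSucc).1.val + 1 ∧ (p k.succ).2.val = 0 := by
      rcases h1 with h1 | h1
      · omega
      · rw [h1.1] at h3
        omega
    have h8 : u.1.val = (p k.castSucc).1.val ∧ u.2.val = 1 := by omega
    have h9 := h (by omega) (p k.castSucc).1.val h4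
    rw [Fin.le_def, ← vl_cell, ← vl_cell, h7.1, h7.2, h8.1, h8.2]
    exact h9
  · omega

end Pool.Agent.Lib_helper27.TP
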