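import Pool.Agent.Lib_helper27.TP.Defs

/-!
# Forward paths and promotion
-/

set_option autoImplicit false

namespace Pool.Agent.Lib_helper27.TP

open Pool.Agent.Lib_helper5.TC

variable {m n : ℕ}

theorem exists_next (T : Fill m n) (a : Cell m n) (ha : a.1.val + a.2.val < m + n) :
    ∃ b, Step a b ∧ ∀ u, Step a u → T b ≤ T u := by
  classical
  have hne : (Finset.univ.filter fun b => Step a b).Nonempty := by
    by_cases h : a.1.val < m
    · exact ⟨(⟨a.1.val + 1, by omega⟩, a.2), Finset.mem_filter.2 ⟨Finset.mem_univ _,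
        Or.inl ⟨rfl, rfl⟩⟩⟩
    · have h1 := a.1.isLt
      exact ⟨(a.1, ⟨a.2.val + 1, by omega⟩), Finset.mem_filter.2 ⟨Finset.mem_univ _,
        Or.inr ⟨rfl, rfl⟩⟩⟩
  obtain ⟨b, hb, hb'⟩ := Finset.exists_min_image _ (fun b => T b) hne
  exact ⟨b, (Finset.mem_filter.1 hb).2, fun u hu =>
    hb' u (Finset.mem_filter.2 ⟨Finset.mem_univ _, hu⟩)⟩

theorem exists_fwd {T : Fill m n} (_hT : IsSYT T) : ∃ p, Fwd T p := by
  classical
  have hx : ∃ next : Cell m n → Cell m n, ∀ a, a.1.val + a.2.val < m + n →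
      Step a (next a) ∧ ∀ u, Step a u → T (next a) ≤ T u :=
    ⟨fun a => if h : a.1.val + a.2.val < m + n then (exists_next T a h).choose else a,
      fun a h => by
        dsimp only
        rw [dif_pos h]
        exact (exists_next T a h).choose_spec⟩
  obtain ⟨next, hnext⟩ := hx
  set P : ℕ → Cell m n := fun k => next^[k] (0, 0) with hP
  have hP1 : ∀ k, P (k + 1) = next (P k) := fun k => Function.iterate_succ_apply' next k _
  have hsum : ∀ k, k ≤ m + n → (P k).1.val + (P k).2.val = k := by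
    intro k
    induction k with
    | zero => intro _; rfl
    | succ k ih =>
      intro hk
      have h1 := ih (by omega)
      have h2 := (hnext (P k) (by omega)).1
      rw [← hP1] at h2
      unfold Step at h2
      omega
  have hstep : ∀ k, k < m + n → Step (P k) (P (k + 1)) ∧ ∀ u, Step (P k) u → T (P (k + 1)) ≤ T u := by
    intro k hk
    have h1 := hsum k (by omega)
    have h2 := hnext (P k) (by omega)
    rw [← hP1] at h2
    exact h2
  refine ⟨fun k => P k.val, ⟨rfl, ?_, fun k => ?_⟩, fun k => ?_⟩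
  · have h1 := hsum (m + n) le_rfl
    have h2 := (P (m + n)).1.isLt
    have h3 := (P (m + n)).2.isLt
    show P (m + n) = _
    refine Prod.ext (Fin.ext ?_) (Fin.ext ?_)
    · rw [Fin.val_last]; omega
    · rw [Fin.val_last]; omega
  · exact (hstep k.val k.isLt).1
  · exact (hstep k.val k.isLt).2

theorem path_inj {p : Fin (m + n + 1) → Cell m n} (hp : IsPath p) : Function.Injective p := by
  intro k k' h
  have h1 := coords hp k
  have h2 := coords hp k'
  rw [h] at h1
  exact Fin.ext (by omega)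

/-- a cell with a path cell on the same antidiagonal -/
theorem off_path {p : Fin (m + n + 1) → Cell m n} (hp : IsPath p) {q : Cell m n}
    {k : Fin (m + n + 1)} (hk : q.1.val + q.2.val = k.val) (hne : p k ≠ q) : ∀ l, p l ≠ q := by
  intro l hl
  have h1 := coords hp l
  rw [hl, hk] at h1
  exact hne (by rw [Fin.ext h1, hl])

theorem fwd_unique {T : Fill m n} {p p' : Fin (m + n + 1) → Cell m n} (h : Fwd T p)
    (h' : Fwd T p') : p = p' := by
  funext k
  induction k using Fin.induction with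
  | zero => rw [h.1.1, h'.1.1]
  | succ k ih =>
    refine T.injective (le_antisymm (h.2 k _ ?_) (h'.2 k _ ?_))
    · rw [ih]; exact h'.1.2.2 k
    · rw [← ih]; exact h.1.2.2 k

theorem produces_unique {T : Fill m n} {p p' : Fin (m + n + 1) → Cell m n} (h : Produces T p)
    (h' : Produces T p') : p = p' := by
  funext k
  induction k using Fin.reverseInduction with
  | last => rw [h.1, h'.1]
  | cast k ih =>
    refine T.injective (le_antisymm ((h'.2 k).2 _ ?_) ((h.2 k).2 _ ?_))
    · rw [← ih]; exact (h.2 k).1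
    · rw [ih]; exact (h'.2 k).1

theorem exists_rot (L : ℕ) (hL : 0 < L) : ∃ ρ : Equiv.Perm (Fin L), ∀ i : Fin L,
    (i.val ≠ 0 → (ρ i).val + 1 = i.val) ∧ (i.val = 0 → (ρ i).val + 1 = L) := by
  obtain ⟨k, rfl⟩ : ∃ k, L = k + 1 := ⟨L - 1, by omega⟩
  refine ⟨(finRotate (k + 1)).symm, fun i => ?_⟩
  obtain ⟨j, rfl⟩ := (finRotate (k + 1)).surjective i
  rw [Equiv.symm_apply_apply]
  by_cases hj : j = Fin.last k
  · subst hj
    rw [finRotate_last]
    exact ⟨fun h => absurd rfl h, fun _ => rfl⟩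
  · rw [coe_finRotate_of_ne_last hj]
    exact ⟨fun _ => rfl, fun h => absurd h (Nat.succ_ne_zero _)⟩

theorem isSYT_of_step {T : Fill m n} (h : ∀ u v, Step u v → T u < T v) : IsSYT T := by
  refine ⟨fun i i' j hi => ?_, fun i j j' hj => ?_⟩
  · have : StrictMono fun i : Fin (m + 1) => T (i, j) :=
      Fin.strictMono_iff_lt_succ.2 fun i => h _ _ (Or.inl ⟨rfl, rfl⟩)
    exact this hi
  · have : StrictMono fun j : Fin (n + 1) => T (i, j) :=
      Fin.strictMono_iff_lt_succ.2 fun i => h _ _ (Or.inr ⟨rfl, rfl⟩)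
    exact this hj

theorem step_lt {T : Fill m n} (hT : IsSYT T) {u v : Cell m n} (h : Step u v) : T u < T v := by
  obtain ⟨u1, u2⟩ := u
  obtain ⟨v1, v2⟩ := v
  rcases h with ⟨h1, h2⟩ | ⟨h1, h2⟩
  · have h2' : v2 = u2 := Fin.ext h2
    subst h2'
    exact hT.1 u1 v1 v2 (Fin.lt_def.2 (by
      have : v1.val = u1.val + 1 := h1
      omega))
  · have h1' : v1 = u1 := Fin.ext h1
    subst h1'
    exact hT.2 v1 u2 v2 (Fin.lt_def.2 (by
      have : v2.val = u2.val + 1 := h2
      omega))

theorem syt_zero {T : Fill m n} (hT : IsSYT T) : (T (0, 0)).val = 0 := by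
  obtain ⟨a, ha⟩ := T.surjective ⟨0, by positivity⟩
  have h1 : T (0, 0) ≤ T (0, a.2) := by
    rcases (Fin.zero_le a.2).eq_or_lt with h | h
    · rw [← h]
    · exact (hT.2 0 0 a.2 h).le
  have h2 : T (0, a.2) ≤ T a := by
    rcases (Fin.zero_le a.1).eq_or_lt with h | h
    · rw [h]
    · exact (hT.1 0 a.1 a.2 h).le
  have h3 := h1.trans h2
  rw [ha] at h3
  exact Nat.le_zero.1 h3

theorem exists_prom {T : Fill m n} {p : Fin (m + n + 1) → Cell m n} (hT : IsSYT T)
    (hp : Fwd T p) : ∃ T' : Fill m n, Prom T p T' ∧ IsSYT T' ∧ Produces T' p := by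
  classical
  have hinj := path_inj hp.1
  obtain ⟨ρ, hρ⟩ := exists_rot ((m + 1) * (n + 1)) (by positivity)
  set σ : Equiv.Perm (Cell m n) :=
    (finRotate (m + n + 1)).extendDomain (Equiv.ofInjective p hinj) with hσ
  have hσ1 : ∀ k : Fin (m + n), σ (p k.castSucc) = p k.succ := by
    intro k
    have h1 : p k.castSucc = ((Equiv.ofInjective p hinj) k.castSucc : Cell m n) := rfl
    rw [h1, hσ, Equiv.Perm.extendDomain_apply_image]
    show p (finRotate (m + n + 1) k.castSucc) = p k.succ
    refine congrArg p (Fin.ext ?_)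
    rw [coe_finRotate_of_ne_last (Fin.castSucc_lt_last k).ne]
    rfl
  have hσ2 : σ (Fin.last m, Fin.last n) = (0, 0) := by
    have h1 : (Fin.last m, Fin.last n) =
      ((Equiv.ofInjective p hinj) (Fin.last (m + n)) : Cell m n) := hp.1.2.1.symm
    rw [h1, hσ, Equiv.Perm.extendDomain_apply_image, finRotate_last]
    exact hp.1.1
  have hσ3 : ∀ q, (∀ k, p k ≠ q) → σ q = q := by
    intro q hq
    rw [hσ]
    exact Equiv.Perm.extendDomain_apply_not_subtype _ _ (fun ⟨k, hk⟩ => hq k hk)
  set T' : Fill m n := (σ.trans T).trans ρ with hT'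
  have hT'a : ∀ q, T' q = ρ (T (σ q)) := fun q => rfl
  have hT0 := syt_zero hT
  have hne0 : ∀ q, q ≠ (0, 0) → (T q).val ≠ 0 := by
    intro q hq h
    exact hq (T.injective (Fin.ext (h.trans hT0.symm)))
  have hp0 : ∀ k : Fin (m + n), p k.succ ≠ (0, 0) := by
    intro k hk
    rw [← hp.1.1] at hk
    exact Fin.succ_ne_zero k (hinj hk)
  have A1 : ∀ k : Fin (m + n), (T' (p k.castSucc)).val + 1 = (T (p k.succ)).val := by
    intro k
    rw [hT'a, hσ1]
    exact (hρ _).1 (hne0 _ (hp0 k))
  have A2 : (T' (Fin.last m, Fin.last n)).val + 1 = (m + 1) * (n + 1) := by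
    rw [hT'a, hσ2]
    exact (hρ _).2 hT0
  have A3 : ∀ q, (∀ k, p k ≠ q) → (T' q).val + 1 = (T q).val := by
    intro q hq
    rw [hT'a, hσ3 q hq]
    refine (hρ _).1 (hne0 _ ?_)
    rintro rfl
    exact hq 0 hp.1.1
  -- the value plus one is at least the old value, with strict inequality on the path
  have B1 : ∀ k : Fin (m + n + 1), (T (p k)).val < (T' (p k)).val + 1 := by
    intro k
    induction k using Fin.lastCases with
    | last => rw [hp.1.2.1, A2]; exact Fin.isLt _
    | cast k =>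
      rw [A1]
      exact step_lt hT (hp.1.2.2 k)
  have hsucc : ∀ u v, Step u v → ∀ k, p k = u → ∃ k' : Fin (m + n), k = k'.castSucc := by
    intro u v huv k hk
    have h1 := coords hp.1 k
    rw [hk] at h1
    have h2 := v.1.isLt
    have h3 := v.2.isLt
    unfold Step at huv
    exact ⟨⟨k.val, by omega⟩, rfl⟩
  refine ⟨T', ⟨A1, A2, A3⟩, isSYT_of_step fun u v huv => ?_, hp.1.2.1, fun k => ⟨hp.1.2.2 k, ?_⟩⟩
  · rw [Fin.lt_def]
    by_cases hu : ∃ k, p k = u
    · obtain ⟨k, hk⟩ := hu
      obtain ⟨k', rfl⟩ := hsucc u v huv k hk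
      have h1 : (T (p k'.succ)).val ≤ (T v).val := hp.2 k' v (by rw [hk]; exact huv)
      have h2 := A1 k'
      rw [hk] at h2
      by_cases hv : ∃ l, p l = v
      · obtain ⟨l, rfl⟩ := hv
        have h3 := B1 l
        omega
      · have hv' : ∀ l, p l ≠ v := fun l hl => hv ⟨l, hl⟩
        have h3 := A3 v hv'
        have h4 : (T (p k'.succ)).val ≠ (T v).val := fun h =>
          hv' k'.succ (T.injective (Fin.ext h))
        omega
    · have h1 := A3 u fun k hk => hu ⟨k, hk⟩
      have h2 : (T u).val < (T v).val := step_lt hT huv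
      by_cases hv : ∃ l, p l = v
      · obtain ⟨l, rfl⟩ := hv
        have h3 := B1 l
        omega
      · have h3 := A3 v fun l hl => hv ⟨l, hl⟩
        omega
  · intro u hu
    by_cases hk : p k.castSucc = u
    · rw [hk]
    · have h0 := coords hp.1 k.succ
      rw [Fin.val_succ] at h0
      have h1 : u.1.val + u.2.val = (k.castSucc).val := by
        rw [Fin.val_castSucc]
        unfold Step at hu
        omega
      have h2 := A3 u (off_path hp.1 h1 hk)
      have h3 := A1 k
      have h4 : (T u).val < (T (p k.succ)).val := step_lt hT hu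
      rw [Fin.le_def]
      omega

open Classical in
/-- promotion -/
noncomputable def prom (T : Fill m n) : Fill m n :=
  if hT : IsSYT T then (exists_prom hT (exists_fwd hT).choose_spec).choose else T

theorem prom_spec {T : Fill m n} (hT : IsSYT T) : ∃ p, Fwd T p ∧ Prom T p (prom T) ∧
    IsSYT (prom T) ∧ Produces (prom T) p := by
  have h := (exists_prom hT (exists_fwd hT).choose_spec).choose_spec
  have h1 : prom T = (exists_prom hT (exists_fwd hT).choose_spec).choose := dif_pos hT
  rw [← h1] at h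
  exact ⟨_, (exists_fwd hT).choose_spec, h⟩

/-- the tableau is determined by its promotion and the path -/
theorem prom_det {T₁ T₂ T' : Fill m n} {p : Fin (m + n + 1) → Cell m n} (hT₁ : IsSYT T₁)
    (hT₂ : IsSYT T₂) (hp : IsPath p) (h₁ : Prom T₁ p T') (h₂ : Prom T₂ p T') : T₁ = T₂ := by
  refine Equiv.ext fun q => Fin.ext ?_
  by_cases hq : ∃ k, p k = q
  · obtain ⟨k, rfl⟩ := hq
    induction k using Fin.cases with
    | zero => rw [hp.1, syt_zero hT₁, syt_zero hT₂]
    | succ k => rw [← h₁.1, ← h₂.1]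
  · rw [← h₁.2.2 q fun k hk => hq ⟨k, hk⟩, ← h₂.2.2 q fun k hk => hq ⟨k, hk⟩]

theorem prom_inj {T₁ T₂ : Fill m n} (hT₁ : IsSYT T₁) (hT₂ : IsSYT T₂)
    (h : prom T₁ = prom T₂) : T₁ = T₂ := by
  obtain ⟨p₁, a1, a2, a3, a4⟩ := prom_spec hT₁
  obtain ⟨p₂, b1, b2, b3, b4⟩ := prom_spec hT₂
  rw [h] at a2 a4
  obtain rfl := produces_unique a4 b4
  exact prom_det hT₁ hT₂ a1.1 a2 b2

theorem produces_prom {T : Fill m n} {p : Fin (m + n + 1) → Cell m n} (hT : IsSYT T)
    (hp : Fwd T p) : Prom T p (prom T) ∧ IsSYT (prom T) ∧ Produces (prom T) p := by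
  obtain ⟨p', h1, h2⟩ := prom_spec hT
  obtain rfl := fwd_unique h1 hp
  exact h2

/-- the number of tableaux which produce `p` is the number of tableaux with forward path `p` -/
theorem N_eq {p : Fin (m + n + 1) → Cell m n} (_hp : IsPath p) : N p = Nat.card (V p) := by
  unfold N
  symm
  refine Nat.card_eq_of_bijective (fun T : V p =>
    (⟨prom T.1, (produces_prom T.2.1 T.2.2).2.1, (produces_prom T.2.1 T.2.2).2.2⟩ :
      {T : Cell m n ≃ Fin ((m + 1) * (n + 1)) // IsSYT T ∧ Produces T p})) ⟨?_, ?_⟩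
  · intro T T' h
    exact Subtype.ext (prom_inj T.2.1 T'.2.1 (congrArg Subtype.val h))
  · intro T'
    have hinj : Function.Injective (fun T : {T : Fill m n // IsSYT T} =>
        (⟨prom T.1, by
          obtain ⟨_, _, _, h, _⟩ := prom_spec T.2
          exact h⟩ : {T : Fill m n // IsSYT T})) := by
      intro T T'' h
      exact Subtype.ext (prom_inj T.2 T''.2 (congrArg Subtype.val h))
    obtain ⟨T, hT⟩ := (Finite.injective_iff_surjective.1 hinj) ⟨T'.1, T'.2.1⟩
    have hT1 : prom T.1 = T'.1 := congrArg Subtype.val hT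
    obtain ⟨p', h1, h2, h3, h4⟩ := prom_spec T.2
    rw [hT1] at h4
    obtain rfl := produces_unique h4 T'.2.2
    exact ⟨⟨T.1, T.2, h1⟩, Subtype.ext hT1⟩

end Pool.Agent.Lib_helper27.TP
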