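import Pool.Agent.Lib_helper27.TP.Bridge
import Pool.Agent.Lib_helper27.TP.Promo

/-!
# Counting
-/

set_option autoImplicit false

namespace Pool.Agent.Lib_helper27.TP

open Pool.Agent.Lib_helper5.TC

variable {m n : ℕ}

theorem isSYT_iter {T : Fill m n} (hT : IsSYT T) (e : ℕ) : IsSYT (prom^[e] T) := by
  induction e with
  | zero => exact hT
  | succ e ih =>
    rw [Function.iterate_succ_apply']
    obtain ⟨_, _, _, h, _⟩ := prom_spec ih
    exact h

theorem iter_inj (e : ℕ) : ∀ {T₁ T₂ : Fill m n}, IsSYT T₁ → IsSYT T₂ →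
    prom^[e] T₁ = prom^[e] T₂ → T₁ = T₂ := by
  induction e with
  | zero => exact fun _ _ h => h
  | succ e ih =>
    intro T₁ T₂ h₁ h₂ h
    rw [Function.iterate_succ_apply', Function.iterate_succ_apply'] at h
    exact ih h₁ h₂ (prom_inj (isSYT_iter h₁ e) (isSYT_iter h₂ e) h)

theorem exists_seq {T : Fill m n} {p : Fin (m + n + 1) → Cell m n} (hT : IsSYT T)
    (hp : Fwd T p) : ∃ c : ℕ → ℕ → ℕ, c 0 = cols p ∧
      Seq m n ((m + 1) * (n + 1)) (fun e => vl (prom^[e] T)) c := by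
  choose P hP1 hP2 hP3 hP4 using fun e => prom_spec (isSYT_iter hT e)
  refine ⟨fun e => cols (P e), ?_, fun e => ?_⟩
  · show cols (P 0) = cols p
    rw [fwd_uniq (hP1 0) hp]
  · show Slide m n _ (vl (prom^[e] T)) (cols (P e)) (vl (prom^[e + 1] T))
    rw [Function.iterate_succ_apply']
    exact slide_of_prom (isSYT_iter hT e) (hP3 e) (hP1 e) (hP2 e) (cols_spec (hP1 e).1)

/-- the time at which the forward path reaches the last row -/
noncomputable def tim (p : Fin (m + n + 1) → Cell m n) (T : Fill m n) : ℕ := vl T m (cols p m)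

/-- the latest start of a full chain which ends before the path reaches the last row -/
noncomputable def start (p : Fin (m + n + 1) → Cell m n) (T : Fill m n) : ℕ := by
  classical
  exact Nat.findGreatest (fun f => Full m n (vl T) f (tim p T)) (tim p T)

theorem start_spec {p : Fin (m + n + 1) → Cell m n} {T : Fill m n} (hT : IsSYT T)
    (hp : Fwd T p) : Full m n (vl T) (start p T) (tim p T) ∧
      ¬ Full m n (vl T) (start p T + 1) (tim p T) ∧ vl T 0 (cols p m) ≤ start p T := by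
  classical
  have hc := cols_spec hp.1
  have hcle : cols p m ≤ n := by
    have := hc.mono m le_rfl
    rw [hc.cm] at this
    exact this
  have hi := inc_vl hT
  have h1 : Full m n (vl T) (vl T 0 (cols p m)) (tim p T) := by
    refine ⟨_, le_rfl, up_col hi hcle (Up.base le_rfl ⟨by omega, _, hcle, rfl⟩) m
      (by omega) le_rfl⟩
  have h2 : start p T = Nat.findGreatest (fun f => Full m n (vl T) f (tim p T)) (tim p T) := rfl
  refine ⟨?_, fun h => ?_, ?_⟩
  · rw [h2]
    exact Nat.findGreatest_spec (P := fun f => Full m n (vl T) f (tim p T)) h1.le h1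
  · have h3 := h.le
    rw [h2] at h h3
    exact Nat.findGreatest_is_greatest (P := fun f => Full m n (vl T) f (tim p T))
      (Nat.lt_succ_self _) h3 h
  · rw [h2]
    exact Nat.le_findGreatest h1.le h1

/-- the crossing -/
theorem exists_cross (hm : 0 < m) {p : Fin (m + n + 1) → Cell m n} {T : Fill m n}
    (hT : IsSYT T) (hp : Fwd T p) :
    ∃ j, (∃ x, x ≤ m ∧ IsMin m n (vl T) (start p T) x (vl T x j) ∧ cols p x ≤ j ∧
      j ≤ cols p (x + 1) ∧ (0 < x → cols p x < j)) ∧
      cols p 1 ≤ j ∧ j ≤ cols p m ∧ (cols p 1 < cols p m → cols p 1 < j) := by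
  obtain ⟨c, hc, hS⟩ := exists_seq hT hp
  have S := hS 0
  rw [hc] at S
  obtain ⟨h1, _, h3⟩ := start_spec hT hp
  obtain ⟨x, j, h4, h5, h6, h7, h8, h9, h10, h11⟩ := S.cross hm h1 h3
  exact ⟨j, ⟨x, h4, h5, h6, h7, h8⟩, h9, h10, h11⟩

/-- the crossing column -/
noncomputable def cr (hm : 0 < m) {p : Fin (m + n + 1) → Cell m n} (T : V p) : ℕ :=
  (exists_cross hm T.2.1 T.2.2).choose

theorem cr_spec (hm : 0 < m) {p : Fin (m + n + 1) → Cell m n} (T : V p) :
    (∃ x, x ≤ m ∧ IsMin m n (vl T.1) (start p T.1) x (vl T.1 x (cr hm T)) ∧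
      cols p x ≤ cr hm T ∧ cr hm T ≤ cols p (x + 1) ∧ (0 < x → cols p x < cr hm T)) ∧
      cols p 1 ≤ cr hm T ∧ cr hm T ≤ cols p m ∧ (cols p 1 < cols p m → cols p 1 < cr hm T) :=
  (exists_cross hm T.2.1 T.2.2).choose_spec

theorem cr_lt (hm : 0 < m) {p : Fin (m + n + 1) → Cell m n} (T₁ T₂ : V p)
    (h : prom^[start p T₁.1] T₁.1 = prom^[start p T₂.1] T₂.1)
    (hlt : start p T₁.1 < start p T₂.1) : cr hm T₁ < cr hm T₂ := by
  obtain ⟨d, hd⟩ := Nat.exists_eq_add_of_lt hlt
  have hd' : start p T₂.1 = start p T₁.1 + (d + 1) := by omega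
  have h1 : T₁.1 = prom^[d + 1] T₂.1 := by
    refine iter_inj (start p T₁.1) T₁.2.1 (isSYT_iter T₂.2.1 _) ?_
    rw [h, ← Function.iterate_add_apply, hd']
  obtain ⟨c, hc, hS⟩ := exists_seq T₂.2.1 T₂.2.2
  obtain ⟨⟨x1, a1, a2, a3, a4, a5⟩, _⟩ := cr_spec hm T₁
  obtain ⟨⟨x2, b1, b2, b3, b4, b5⟩, _⟩ := cr_spec hm T₂
  have hfull := (start_spec T₂.2.1 T₂.2.2).1
  rw [hd'] at hfull b2
  rw [← hc] at a3 a4 b4 b5
  have a2' : IsMin m n (vl (prom^[d + 1] T₂.1)) (start p T₁.1) x1
      (vl (prom^[d + 1] T₂.1) x1 (cr hm T₁)) := by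
    rw [← h1]
    exact a2
  exact hS.compare (fun e => vl_lt _) (Nat.succ_pos d) a1 a2' a3 a4 b1 hfull b2 b4 b5

/-- the forward path of the result is a corner path -/
theorem fwd_result {p p₂ : Fin (m + n + 1) → Cell m n} (hp₂ : IsPath p₂)
    (hc : ∃ k, p₂ k = (Fin.last m, 0)) {T : Fill m n} (hT : IsSYT T) (hp : Fwd T p) :
    Fwd (prom^[start p T] T) p₂ := by
  obtain ⟨h1, h2, _⟩ := start_spec hT hp
  obtain ⟨c, _, hS⟩ := exists_seq hT hp
  have hle := h1.le
  have hlt := vl_lt T m (cols p m)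
  have hlt' : tim p T < (m + 1) * (n + 1) := hlt
  obtain ⟨t, ht⟩ := Nat.exists_eq_add_of_le hle
  rw [ht] at h1 h2 hlt'
  have hS' := isSYT_iter hT (start p T)
  refine fwd_corner hp₂ hc fun hn k hk => corner_of_full (inc_vl hS') (t := t) ?_ ?_ hn k hk
  · refine hS.full (start p T) (g := 0) ?_
    rw [Nat.zero_add, Nat.add_comm t]
    exact h1
  · intro h3
    have h4 := hS.full' (start p T) h3 (by omega)
    rw [Nat.add_comm 1, Nat.add_comm t] at h4
    exact h2 h4

theorem card_V_le (hm : 0 < m) {p p₂ : Fin (m + n + 1) → Cell m n} (hp₂ : IsPath p₂)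
    (hc : ∃ k, p₂ k = (Fin.last m, 0)) :
    Nat.card (V p) ≤ max 1 (cols p m - cols p 1) * Nat.card (V p₂) := by
  classical
  let J : Type := {j : ℕ // j ∈ (if cols p 1 < cols p m then Finset.Ioc (cols p 1) (cols p m)
    else {cols p m})}
  have hJ : Nat.card J ≤ max 1 (cols p m - cols p 1) := by
    rw [Nat.card_eq_fintype_card, Fintype.card_coe]
    split_ifs with h
    · rw [Nat.card_Ioc]
      exact le_max_right _ _
    · rw [Finset.card_singleton]
      exact le_max_left _ _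
  have hmem : ∀ T : V p, cr hm T ∈ (if cols p 1 < cols p m then
      Finset.Ioc (cols p 1) (cols p m) else {cols p m}) := by
    intro T
    obtain ⟨_, h1, h2, h3⟩ := cr_spec hm T
    split_ifs with h
    · exact Finset.mem_Ioc.mpr ⟨h3 h, h2⟩
    · exact Finset.mem_singleton.mpr (by omega)
  let F : V p → J × V p₂ := fun T => (⟨cr hm T, hmem T⟩,
    ⟨prom^[start p T.1] T.1, isSYT_iter T.2.1 _, fwd_result hp₂ hc T.2.1 T.2.2⟩)
  have hF : Function.Injective F := by
    intro T₁ T₂ h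
    have h1 : cr hm T₁ = cr hm T₂ := congrArg (fun a : J × V p₂ => a.1.1) h
    have h2 : prom^[start p T₁.1] T₁.1 = prom^[start p T₂.1] T₂.1 :=
      congrArg (fun a : J × V p₂ => a.2.1) h
    rcases Nat.lt_trichotomy (start p T₁.1) (start p T₂.1) with h3 | h3 | h3
    · have := cr_lt hm T₁ T₂ h2 h3
      omega
    · rw [h3] at h2
      exact Subtype.ext (iter_inj _ T₁.2.1 T₂.2.1 h2)
    · have := cr_lt hm T₂ T₁ h2.symm h3
      omega
  calc Nat.card (V p) ≤ Nat.card (J × V p₂) := Nat.card_le_card_of_injective F hF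
    _ = Nat.card J * Nat.card (V p₂) := Nat.card_prod _ _
    _ ≤ _ := Nat.mul_le_mul_right _ hJ

end Pool.Agent.Lib_helper27.TP
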