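import Pool.Agent.Lib_helper27.TP.Window

/-!
# Where the chain crosses the path
-/

set_option autoImplicit false

namespace Pool.Agent.Lib_helper27.TP

variable {m n L : ℕ}

/-- iterated slides -/
def Seq (m n L : ℕ) (A : ℕ → ℕ → ℕ → ℕ) (c : ℕ → ℕ → ℕ) : Prop :=
  ∀ e, Slide m n L (A e) (c e) (A (e + 1))

theorem Seq.shift {A : ℕ → ℕ → ℕ → ℕ} {c : ℕ → ℕ → ℕ} (S : Seq m n L A c) :
    Seq m n L (fun e => A (e + 1)) (fun e => c (e + 1)) := fun e => S (e + 1)

theorem Seq.up {g k : ℕ} (d : ℕ) : ∀ {A : ℕ → ℕ → ℕ → ℕ} {c : ℕ → ℕ → ℕ} {s : ℕ},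
    Seq m n L A c → Up m n (A 0) (g + d) k s → ∃ s', s' + d ≤ s ∧ Up m n (A d) g k s' := by
  induction d with
  | zero => exact fun _ h => ⟨_, le_rfl, h⟩
  | succ d ih =>
    intro A c s S h
    obtain ⟨s', h1, h2⟩ := (S 0).up (g := g + d) h
    obtain ⟨s'', h3, h4⟩ := ih S.shift h2
    exact ⟨s'', by omega, h4⟩

theorem Seq.full {g t : ℕ} (d : ℕ) {A : ℕ → ℕ → ℕ → ℕ} {c : ℕ → ℕ → ℕ}
    (S : Seq m n L A c) (h : Full m n (A 0) (g + d) (t + d)) : Full m n (A d) g t := by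
  obtain ⟨s, h1, h2⟩ := h
  obtain ⟨s', h3, h4⟩ := S.up d h2
  exact ⟨s', by omega, h4⟩

theorem Seq.full' {g : ℕ} (d : ℕ) : ∀ {A : ℕ → ℕ → ℕ → ℕ} {c : ℕ → ℕ → ℕ} {t : ℕ},
    Seq m n L A c → Full m n (A d) g t → t + d < L → Full m n (A 0) (g + d) (t + d) := by
  induction d with
  | zero => exact fun _ h _ => h
  | succ d ih =>
    intro A c t S h ht
    have h1 := ih S.shift h (by omega)
    exact (S 0).full' h1 (by omega)

theorem Seq.ge {A : ℕ → ℕ → ℕ → ℕ} {c : ℕ → ℕ → ℕ} (S : Seq m n L A c)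
    (hL : ∀ e i j, A e i j < L) (d : ℕ) (i j : ℕ) (hi : i ≤ m) (hj : j ≤ n) :
    A 0 i j ≤ A d i j + d := by
  induction d with
  | zero => exact le_rfl
  | succ d ih =>
    have := (S d).ge (hL d) i j hi hj
    omega

theorem Seq.gt {A : ℕ → ℕ → ℕ → ℕ} {c : ℕ → ℕ → ℕ} (S : Seq m n L A c)
    (hL : ∀ e i j, A e i j < L) (d : ℕ) (hd : 0 < d) (i j : ℕ) (hi : i ≤ m) (h8 : c 0 i ≤ j)
    (h9 : j ≤ c 0 (i + 1)) : A 0 i j < A d i j + d := by
  obtain ⟨d, rfl⟩ : ∃ e, d = e + 1 := ⟨d - 1, by omega⟩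
  have h1 := (S 0).gt (hL 0) i j hi h8 h9
  have h2 := S.shift.ge (fun e => hL (e + 1)) d i j hi
    (h9.trans ((S 0).c_le (i + 1) (by omega)))
  have h3 : A (0 + 1) i j ≤ A (d + 1) i j + d := h2
  omega

/-- `s` is the smallest end of a chain of rows `0..i` which starts with a value `≥ f` -/
def IsMin (m n : ℕ) (A : ℕ → ℕ → ℕ) (f i s : ℕ) : Prop :=
  Up m n A f i s ∧ ∀ s', Up m n A f i s' → s ≤ s'

theorem exists_isMin {A : ℕ → ℕ → ℕ} {f t : ℕ} (h : Full m n A f t) (i : ℕ) (hi : i ≤ m) :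
    ∃ s, IsMin m n A f i s := by
  classical
  obtain ⟨s, _, h2⟩ := h
  have h3 := h2.initial i hi
  exact ⟨Nat.find h3, Nat.find_spec h3, fun s' hs' => Nat.find_min' h3 hs'⟩

/-- columns are chains -/
theorem up_col {A : ℕ → ℕ → ℕ} (hA : Inc m n A) {f k j : ℕ} (hj : j ≤ n)
    (h : Up m n A f k (A k j)) : ∀ i, k ≤ i → i ≤ m → Up m n A f i (A i j) := by
  intro i h1
  induction i, h1 using Nat.le_induction with
  | base => exact fun _ => h
  | succ i hi ih =>
    intro h2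
    exact Up.step (ih (by omega)) (hA.col i (i + 1) j (by omega) h2 hj) ⟨h2, j, hj, rfl⟩

/-- if the chain is on the path or below it in row `i`, it stays there -/
theorem Slide.stay {A A' : ℕ → ℕ → ℕ} {c : ℕ → ℕ} (S : Slide m n L A c A') {f i s : ℕ}
    (h : Up m n A f i s) (hs : s ≤ A i (c (i + 1))) (hi : i < m) :
    Up m n A f (i + 1) (A (i + 1) (c (i + 1))) := by
  have h1 := S.c_le (i + 1) (by omega)
  have h2 := S.inc.col i (i + 1) (c (i + 1)) (by omega) (by omega) h1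
  exact Up.step h (by omega) ⟨by omega, _, h1, rfl⟩

theorem Slide.stay' {A A' : ℕ → ℕ → ℕ} {c : ℕ → ℕ} (S : Slide m n L A c A') {f i s : ℕ}
    (h : Up m n A f i s) (hs : s ≤ A i (c (i + 1))) :
    ∀ k, i < k → k ≤ m → Up m n A f k (A k (c k)) := by
  intro k hk
  induction k, hk using Nat.le_induction with
  | base => exact fun h1 => S.stay h hs h1
  | succ k hk ih =>
    intro h1
    exact S.stay (ih (by omega)) (S.inc.row_le (by omega) (S.mono k (by omega))
      (S.c_le (k + 1) (by omega))) h1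

/-- **crossing lemma** -/
theorem Slide.cross {A A' : ℕ → ℕ → ℕ} {c : ℕ → ℕ} (S : Slide m n L A c A') {f : ℕ}
    (hm : 0 < m) (hf : Full m n A f (A m (c m))) (hf' : A 0 (c m) ≤ f) :
    ∃ x j, x ≤ m ∧ IsMin m n A f x (A x j) ∧ c x ≤ j ∧ j ≤ c (x + 1) ∧ (0 < x → c x < j) ∧
      c 1 ≤ j ∧ j ≤ c m ∧ (c 1 < c m → c 1 < j) := by
  classical
  have key : ∃ x, x ≤ m ∧ ∃ s, IsMin m n A f x s ∧ s ≤ A x (c (x + 1)) := by
    obtain ⟨s, h1⟩ := exists_isMin hf m le_rfl
    refine ⟨m, le_rfl, s, h1, ?_⟩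
    obtain ⟨s', h2, h3⟩ := hf
    have h4 := h1.2 s' h3
    have h5 := S.inc.row_le le_rfl (S.mono m le_rfl) (S.c_le _ le_rfl)
    omega
  have c1m : c 1 ≤ c m := cmono S.mono 1 m hm (by omega)
  set x := Nat.find key with hx
  obtain ⟨hxm, s, hs, hsx⟩ := Nat.find_spec key
  rw [← hx] at hxm hs hsx
  obtain ⟨_, j, hj, rfl⟩ := hs.1.rw
  have hjx : j ≤ c (x + 1) := by
    by_contra hc
    have := S.inc.row x (c (x + 1)) j hxm (by omega) hj
    omega
  rcases Nat.eq_zero_or_pos x with h0 | h0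
  · have h1 := hs.1.le
    rw [h0] at h1 hjx hs
    have h2 : c m ≤ j := by
      by_contra hc
      have := S.inc.row 0 j (c m) (by omega) (by omega) (S.c_le m (by omega))
      omega
    rw [Nat.zero_add] at hjx
    refine ⟨0, j, by omega, hs, by rw [S.c0]; omega, hjx, fun h => absurd h (lt_irrefl 0),
      by omega, by omega, fun h => by omega⟩
  · -- the chain is strictly above the path in row `x - 1`
    obtain ⟨y, hy⟩ : ∃ y, x = y + 1 := ⟨x - 1, by omega⟩
    have h1 : ¬ ∃ s, IsMin m n A f y s ∧ s ≤ A y (c (y + 1)) := fun hc =>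
      Nat.find_min key (m := y) (by omega) ⟨by omega, hc⟩
    obtain ⟨t, ht⟩ := exists_isMin hf y (by omega)
    have h2 : A y (c (y + 1)) < t := by
      by_contra hc
      exact h1 ⟨t, ht, not_lt.mp hc⟩
    obtain ⟨_, d, hd, hdt⟩ := ht.1.rw
    have h3 : c (y + 1) < d := S.inc.row_lt (by omega) (S.c_le (y + 1) (by omega)) (by omega)
    have h4 := S.f1 y (by omega) (by omega)
    have h5 := S.inc.row_le (i := y) (by omega) (show c (y + 1) + 1 ≤ d by omega) hd
    -- the minimum in row `x` comes after `t`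
    have h6 : t < A x j := by
      have h7 := hs.1
      generalize A x j = w at h7
      rw [hy] at h7
      cases h7 with
      | step h8 h9 _ => exact (ht.2 _ h8).trans_lt h9
    have h7 : c x < j := by
      refine S.inc.row_lt hxm (S.c_le x (by omega)) ?_
      rw [hy] at h6 ⊢
      omega
    have h8 : x < m := by
      rcases hxm.lt_or_eq with h | h
      · exact h
      · exfalso
        obtain ⟨s', h9, h10⟩ := hf
        rw [h] at hs h7
        have h11 := hs.2 s' h10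
        have h12 := S.inc.row m (c m) j le_rfl h7 hj
        omega
    have h9 := cmono S.mono (x + 1) m (by omega) (by omega)
    have h10 := cmono S.mono 1 x (by omega) (by omega)
    exact ⟨x, j, hxm, hs, h7.le, hjx, fun _ => h7, by omega, by omega, fun _ => by omega⟩

/-- **comparison lemma**: the crossing column increases strictly -/
theorem Seq.compare {A : ℕ → ℕ → ℕ → ℕ} {c : ℕ → ℕ → ℕ} (S : Seq m n L A c)
    (hL : ∀ e i j, A e i j < L) {d : ℕ} (hd : 0 < d) {f t x1 j1 x2 j2 : ℕ}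
    (hx1 : x1 ≤ m) (h1 : IsMin m n (A d) f x1 (A d x1 j1)) (h2 : c 0 x1 ≤ j1)
    (h3 : j1 ≤ c 0 (x1 + 1)) (hx2 : x2 ≤ m) (hfull : Full m n (A 0) (f + d) t)
    (h4 : IsMin m n (A 0) (f + d) x2 (A 0 x2 j2)) (h6 : j2 ≤ c 0 (x2 + 1))
    (h7 : 0 < x2 → c 0 x2 < j2) : j1 < j2 := by
  obtain ⟨M, hM⟩ := exists_isMin hfull x1 hx1
  have b1 : j1 ≤ n := h3.trans ((S 0).c_le _ (by omega))
  have b2 : j2 ≤ n := h6.trans ((S 0).c_le _ (by omega))
  have h8 := S.gt hL d hd x1 j1 hx1 h2 h3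
  have h9 : A 0 x1 j1 < M := by
    obtain ⟨s', h10, h11⟩ := S.up d hM.1
    have := h1.2 s' h11
    omega
  rcases Nat.lt_trichotomy x2 x1 with h10 | h10 | h10
  · exfalso
    have h11 := (S 0).stay' h4.1
      ((S 0).inc.row_le hx2 h6 ((S 0).c_le (x2 + 1) (by omega))) x1 h10 hx1
    have h12 := hM.2 _ h11
    have h13 := (S 0).inc.row_le hx1 h2 b1
    omega
  · subst h10
    have h11 := hM.2 _ h4.1
    exact (S 0).inc.row_lt hx1 b1 (by omega)
  · have h11 := cmono (S 0).mono (x1 + 1) x2 (by omega) (by omega)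
    have h12 := h7 (by omega)
    omega

/-- no full chain in `[1, t]` but one in `[0, t]`: the forward path goes down first -/
theorem corner_of_full {A : ℕ → ℕ → ℕ} (hA : Inc m n A) {t : ℕ} (h0 : Full m n A 0 t)
    (h1 : ¬ Full m n A 1 t) (hn : 0 < n) (k : ℕ) (hk : k < m) : A (k + 1) 0 ≤ A k 1 := by
  by_contra hc
  refine h1 ?_
  have h2 : Up m n A 1 0 (A 0 1) := by
    refine Up.base ?_ ⟨by omega, 1, hn, rfl⟩
    have := hA.row 0 0 1 (by omega) (by omega) hn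
    omega
  have h3 := up_col (j := 1) hA hn h2 k (by omega) (by omega)
  have h4 : Up m n A 1 (k + 1) (A (k + 1) 0) := Up.step h3 (by omega) ⟨hk, 0, by omega, rfl⟩
  have h5 := up_col hA (Nat.zero_le n) h4 m (by omega) le_rfl
  obtain ⟨s, h6, h7⟩ := h0
  obtain ⟨_, j, hj, rfl⟩ := h7.rw
  have h8 := hA.row_le le_rfl (Nat.zero_le j) hj
  exact ⟨_, by omega, h5⟩

end Pool.Agent.Lib_helper27.TP
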