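import Pool.Agent.Lib_helper27.TP.Count

/-!
# The main theorem
-/

set_option autoImplicit false

namespace Pool.Agent.Lib_helper27.TP

open Pool.Agent.Lib_helper5.TC

variable {m n : ℕ}

/-- number of horizontal steps of `p` strictly between its first and its last vertical step,
that is, in the rows `1, ..., m - 1` -/
noncomputable def midH (p : Fin (m + n + 1) → Cell m n) : ℕ :=
  Nat.card {k : Fin (m + n) // (p k.castSucc).1 = (p k.succ).1 ∧
    0 < (p k.castSucc).1.val ∧ (p k.castSucc).1.val < m}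

/-- number of vertical steps of `p` strictly between its first and its last horizontal step,
that is, in the columns `1, ..., n - 1` -/
noncomputable def midV (p : Fin (m + n + 1) → Cell m n) : ℕ :=
  Nat.card {k : Fin (m + n) // (p k.castSucc).2 = (p k.succ).2 ∧
    0 < (p k.castSucc).2.val ∧ (p k.castSucc).2.val < n}

theorem mid_le (hm : 0 < m) {p : Fin (m + n + 1) → Cell m n} (hp : IsPath p) :
    cols p m - cols p 1 ≤ midH p := by
  classical
  have hc := cols_spec hp
  have hcle : ∀ i, i ≤ m + 1 → cols p i ≤ n := fun i hi => by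
    have := cmono hc.mono i (m + 1) hi le_rfl
    rw [hc.cm] at this
    exact this
  have key : ∀ j : {j : ℕ // j ∈ Finset.Ioc (cols p 1) (cols p m)},
      ∃ k : {k : Fin (m + n) // (p k.castSucc).1 = (p k.succ).1 ∧
        0 < (p k.castSucc).1.val ∧ (p k.castSucc).1.val < m}, (p k.1.succ).2.val = j.1 := by
    rintro ⟨j, hj⟩
    rw [Finset.mem_Ioc] at hj
    have hex : ∃ i, j ≤ cols p (i + 1) := ⟨m - 1, by rw [Nat.sub_add_cancel hm]; exact hj.2⟩
    obtain ⟨i, hi1, hi2, hi3, him⟩ :
        ∃ i, j ≤ cols p (i + 1) ∧ cols p i < j ∧ 0 < i ∧ i < m := by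
      have h1 := Nat.find_spec hex
      have h2 : 0 < Nat.find hex := by
        by_contra h
        rw [show Nat.find hex = 0 by omega, Nat.zero_add] at h1
        omega
      have h4 := Nat.find_min' hex (m := m - 1) (by rw [Nat.sub_add_cancel hm]; exact hj.2)
      refine ⟨Nat.find hex, h1, ?_, h2, by omega⟩
      have h3 := Nat.find_min hex (m := Nat.find hex - 1) (by omega)
      rw [Nat.sub_add_cancel h2] at h3
      omega
    have hn := hcle (i + 1) (by omega)
    have e1 := hc.path hp (show i < m + 1 by omega) (show j - 1 < n + 1 by omega)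
      (by omega) (by omega) (Fin.castSucc ⟨i + (j - 1), by omega⟩) rfl
    have e2 := hc.path hp (show i < m + 1 by omega) (show j < n + 1 by omega)
      (by omega) (by omega) (Fin.succ ⟨i + (j - 1), by omega⟩)
      (by show i + (j - 1) + 1 = i + j; omega)
    exact ⟨⟨⟨i + (j - 1), by omega⟩, by rw [e1, e2], by rw [e1]; exact hi3, by rw [e1]; exact him⟩,
      by rw [e2]⟩
  choose F hF using key
  have h1 : Function.Injective F := by
    intro a b h
    have h2 := hF a
    rw [h, hF b] at h2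
    exact (Subtype.ext h2).symm
  have h2 := Nat.card_le_card_of_injective F h1
  rw [Nat.card_eq_fintype_card, Fintype.card_coe, Nat.card_Ioc] at h2
  exact h2

theorem midH_tp (p : Fin (m + n + 1) → Cell m n) : midH (tp p) = midV p := by
  unfold midH midV
  refine Nat.card_congr (Equiv.subtypeEquiv (finCongr (Nat.add_comm n m)) fun k => ?_)
  rw [tp_castSucc, tp_succ, Prod.fst_swap, Prod.fst_swap]
  exact Iff.rfl

theorem path_unique_of_row {m n : ℕ} (hm : m = 0) {p p' : Fin (m + n + 1) → Cell m n}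
    (hp : IsPath p) (hp' : IsPath p') : p = p' := by
  subst hm
  funext k
  have h1 := coords hp k
  have h2 := coords hp' k
  exact Prod.ext (Fin.ext (by omega)) (Fin.ext (by omega))

theorem le_midH {p p₂ : Fin (m + n + 1) → Cell m n} (hp : IsPath p) (hp₂ : IsPath p₂)
    (h₂ : ∃ k, p₂ k = (Fin.last m, 0)) : N p ≤ max 1 (midH p) * N p₂ := by
  rcases Nat.eq_zero_or_pos m with hm | hm
  · rw [path_unique_of_row hm hp hp₂]
    exact Nat.le_mul_of_pos_left _ (Nat.lt_of_lt_of_le Nat.zero_lt_one (le_max_left _ _))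
  · rw [N_eq hp, N_eq hp₂]
    exact (card_V_le hm hp₂ h₂).trans (Nat.mul_le_mul_right _
      (max_le_max le_rfl (mid_le hm hp)))

theorem le_midV {p p₁ : Fin (m + n + 1) → Cell m n} (hp : IsPath p) (hp₁ : IsPath p₁)
    (h₁ : ∃ k, p₁ k = (0, Fin.last n)) : N p ≤ max 1 (midV p) * N p₁ := by
  obtain ⟨k, hk⟩ := h₁
  have := le_midH (isPath_tp hp) (isPath_tp hp₁) ⟨Fin.cast (len_eq n m) k, by
    show (p₁ _).swap = _
    have : (Fin.cast (len_eq m n) (Fin.cast (len_eq n m) k)) = k := rfl
    rw [this, hk]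
    rfl⟩
  rw [N_tp, N_tp, midH_tp] at this
  exact this

/-- a path through the upper right corner has no horizontal step in the middle rows -/
theorem midH_corner {p₁ : Fin (m + n + 1) → Cell m n} (hp₁ : IsPath p₁)
    (h₁ : ∃ k, p₁ k = (0, Fin.last n)) : midH p₁ = 0 := by
  obtain ⟨k₀, hk₀⟩ := h₁
  have hc := cols_spec hp₁
  have h1 : cols p₁ 1 = n := by
    have h2 := (hc.mem hp₁ k₀).2
    rw [hk₀] at h2
    have h3 : n ≤ cols p₁ 1 := h2
    have h4 := cmono hc.mono 1 (m + 1) (by omega) le_rfl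
    rw [hc.cm] at h4
    omega
  unfold midH
  rw [Nat.card_eq_zero]
  left
  refine ⟨fun k => ?_⟩
  obtain ⟨h2, h3, h4⟩ := k.2
  have h5 := (hc.mem hp₁ k.1.castSucc).1
  have h6 := cmono hc.mono 1 (p₁ k.1.castSucc).1.val h3 (by omega)
  have h7 := coords hp₁ k.1.castSucc
  have h8 := coords hp₁ k.1.succ
  have h9 := congrArg Fin.val h2
  rw [Fin.val_succ] at h8
  rw [Fin.val_castSucc] at h7
  have h10 := (p₁ k.1.succ).2.isLt
  omega

theorem midV_corner {p₂ : Fin (m + n + 1) → Cell m n} (hp₂ : IsPath p₂)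
    (h₂ : ∃ k, p₂ k = (Fin.last m, 0)) : midV p₂ = 0 := by
  obtain ⟨k, hk⟩ := h₂
  have := midH_corner (isPath_tp hp₂) ⟨Fin.cast (len_eq n m) k, by
    show (p₂ _).swap = _
    have : (Fin.cast (len_eq m n) (Fin.cast (len_eq n m) k)) = k := rfl
    rw [this, hk]
    rfl⟩
  rw [midH_tp] at this
  exact this

theorem corners_eq {p₁ p₂ : Fin (m + n + 1) → Cell m n} (hp₁ : IsPath p₁) (hp₂ : IsPath p₂)
    (h₁ : ∃ k, p₁ k = (0, Fin.last n)) (h₂ : ∃ k, p₂ k = (Fin.last m, 0)) : N p₁ = N p₂ := by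
  refine le_antisymm ?_ ?_
  · have := le_midH hp₁ hp₂ h₂
    rw [midH_corner hp₁ h₁, max_eq_left (Nat.zero_le 1), one_mul] at this
    exact this
  · have := le_midV hp₂ hp₁ h₁
    rw [midV_corner hp₂ h₂, max_eq_left (Nat.zero_le 1), one_mul] at this
    exact this

/-- **Theorem B** -/
theorem mid_main {p p₁ p₂ : Fin (m + n + 1) → Cell m n} (hp : IsPath p) (hp₁ : IsPath p₁)
    (hp₂ : IsPath p₂) (h₁ : ∃ k, p₁ k = (0, Fin.last n)) (h₂ : ∃ k, p₂ k = (Fin.last m, 0)) :
    N p₁ = N p₂ ∧ N p ≤ max 1 (min (midH p) (midV p)) * N p₂ := by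
  have h := corners_eq hp₁ hp₂ h₁ h₂
  refine ⟨h, ?_⟩
  rcases le_total (midH p) (midV p) with h' | h'
  · rw [min_eq_left h']
    exact le_midH hp hp₂ h₂
  · rw [min_eq_right h', ← h]
    exact le_midV hp hp₁ h₁

end Pool.Agent.Lib_helper27.TP
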