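import Mathlib

/-!
# Chains in windows of an increasing array, and how a slide changes them
-/

set_option autoImplicit false

namespace Pool.Agent.Lib_helper27.TP

/-- an array on `[0,m] × [0,n]` with strictly increasing rows and columns -/
structure Inc (m n : ℕ) (A : ℕ → ℕ → ℕ) : Prop where
  row : ∀ i j j', i ≤ m → j < j' → j' ≤ n → A i j < A i j'
  col : ∀ i i' j, i < i' → i' ≤ m → j ≤ n → A i j < A i' j

/-- `s` is a value in row `i` -/
def Rw (m n : ℕ) (A : ℕ → ℕ → ℕ) (i s : ℕ) : Prop := i ≤ m ∧ ∃ j, j ≤ n ∧ A i j = s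

/-- there is a chain of values in rows `0, ..., k`, starting with a value `≥ f`, ending in `s` -/
inductive Up (m n : ℕ) (A : ℕ → ℕ → ℕ) (f : ℕ) : ℕ → ℕ → Prop
  | base {s : ℕ} : f ≤ s → Rw m n A 0 s → Up m n A f 0 s
  | step {k s s' : ℕ} : Up m n A f k s → s < s' → Rw m n A (k + 1) s' → Up m n A f (k + 1) s'

/-- there is a chain of values in rows `k, ..., m`, starting with `s`, ending with a value `≤ t` -/
inductive Dn (m n : ℕ) (A : ℕ → ℕ → ℕ) (t : ℕ) : ℕ → ℕ → Prop
  | base {s : ℕ} : s ≤ t → Rw m n A m s → Dn m n A t m s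
  | step {k s s' : ℕ} : Dn m n A t (k + 1) s' → s < s' → Rw m n A k s → Dn m n A t k s

/-- the window `[f, t]` contains a full chain -/
def Full (m n : ℕ) (A : ℕ → ℕ → ℕ) (f t : ℕ) : Prop := ∃ s, s ≤ t ∧ Up m n A f m s

variable {m n : ℕ} {A A' : ℕ → ℕ → ℕ}

theorem Up.rw {f k s : ℕ} (h : Up m n A f k s) : Rw m n A k s := by
  cases h with
  | base _ h => exact h
  | step _ _ h => exact h

theorem Dn.rw {t k s : ℕ} (h : Dn m n A t k s) : Rw m n A k s := by
  cases h with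
  | base _ h => exact h
  | step _ _ h => exact h

theorem Up.le {f k s : ℕ} (h : Up m n A f k s) : f ≤ s := by
  induction h with
  | base h _ => exact h
  | step _ h1 _ ih => omega

theorem Up.mono {f g k s : ℕ} (h : Up m n A f k s) (hg : g ≤ f) : Up m n A g k s := by
  induction h with
  | base h h' => exact Up.base (hg.trans h) h'
  | step _ h1 h2 ih => exact Up.step ih h1 h2

theorem Full.mono {f g t u : ℕ} (h : Full m n A f t) (hg : g ≤ f) (ht : t ≤ u) :
    Full m n A g u := by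
  obtain ⟨s, h1, h2⟩ := h
  exact ⟨s, h1.trans ht, h2.mono hg⟩

theorem Full.le {f t : ℕ} (h : Full m n A f t) : f ≤ t := by
  obtain ⟨s, h1, h2⟩ := h
  exact h2.le.trans h1

theorem full_of_dn {f t k s : ℕ} (h : Dn m n A t k s) (h' : Up m n A f k s) :
    Full m n A f t := by
  induction h with
  | base h1 _ => exact ⟨_, h1, h'⟩
  | step h1 h2 _ ih => exact ih (Up.step h' h2 h1.rw)

theorem dn_of_up {f t k s : ℕ} (h : Up m n A f k s) (h' : Dn m n A t k s) :
    ∃ s, f ≤ s ∧ Dn m n A t 0 s := by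
  induction h with
  | base h1 _ => exact ⟨_, h1, h'⟩
  | step h1 h2 _ ih => exact ih (Dn.step h' h2 h1.rw)

theorem full_iff_dn {f t : ℕ} : Full m n A f t ↔ ∃ s, f ≤ s ∧ Dn m n A t 0 s := by
  constructor
  · rintro ⟨s, h1, h2⟩
    exact dn_of_up h2 (Dn.base h1 h2.rw)
  · rintro ⟨s, h1, h2⟩
    exact full_of_dn h2 (Up.base h1 h2.rw)

/-- a chain of rows `0..k` contains chains of rows `0..i` for `i ≤ k` -/
theorem Up.initial {f k s : ℕ} (h : Up m n A f k s) :
    ∀ i, i ≤ k → ∃ s', Up m n A f i s' := by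
  induction h with
  | base h h' => exact fun i hi => ⟨_, by obtain rfl : i = 0 := by omega
                                          exact Up.base h h'⟩
  | @step k s s' h1 h2 h3 ih =>
    intro i hi
    rcases Nat.lt_or_ge k i with h | h
    · obtain rfl : i = k + 1 := by omega
      exact ⟨_, Up.step h1 h2 h3⟩
    · exact ih i h

/-- `A'` is the slide of `A` along the path which is in the columns `c i, ..., c (i+1)` in
row `i` -/
structure Slide (m n L : ℕ) (A : ℕ → ℕ → ℕ) (c : ℕ → ℕ) (A' : ℕ → ℕ → ℕ) : Prop where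
  inc : Inc m n A
  inc' : Inc m n A'
  zero : A 0 0 = 0
  c0 : c 0 = 0
  cm : c (m + 1) = n
  mono : ∀ i, i ≤ m → c i ≤ c (i + 1)
  p1 : ∀ i j, i ≤ m → c i ≤ j → j < c (i + 1) → A' i j + 1 = A i (j + 1)
  p2 : ∀ i, i < m → A' i (c (i + 1)) + 1 = A (i + 1) (c (i + 1))
  p3 : A' m n + 1 = L
  p4 : ∀ i j, i ≤ m → j ≤ n → (j < c i ∨ c (i + 1) < j) → A' i j + 1 = A i j
  f1 : ∀ i, i < m → c (i + 1) < n → A (i + 1) (c (i + 1)) < A i (c (i + 1) + 1)

theorem Inc.row_lt {m n : ℕ} {A : ℕ → ℕ → ℕ} (h : Inc m n A) {i j j' : ℕ} (hi : i ≤ m)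
    (hj : j ≤ n) (hlt : A i j < A i j') : j < j' := by
  by_contra hc
  rcases (not_lt.mp hc).lt_or_eq with h1 | h1
  · have := h.row i j' j hi h1 hj
    omega
  · rw [h1] at hlt
    exact lt_irrefl _ hlt

theorem Inc.row_le {m n : ℕ} {A : ℕ → ℕ → ℕ} (h : Inc m n A) {i j j' : ℕ} (hi : i ≤ m)
    (hj : j ≤ j') (hj' : j' ≤ n) : A i j ≤ A i j' := by
  rcases hj.lt_or_eq with h1 | h1
  · exact (h.row i j j' hi h1 hj').le
  · rw [h1]

theorem cmono {m : ℕ} {c : ℕ → ℕ} (h : ∀ i, i ≤ m → c i ≤ c (i + 1)) :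
    ∀ i i', i ≤ i' → i' ≤ m + 1 → c i ≤ c i' := by
  intro i i' h1
  induction i', h1 using Nat.le_induction with
  | base => intro _; exact le_rfl
  | succ k hk ih => intro h2; exact (ih (by omega)).trans (h k (by omega))

theorem Slide.c_le {L : ℕ} {c : ℕ → ℕ} (S : Slide m n L A c A') (i : ℕ) (hi : i ≤ m + 1) :
    c i ≤ n := by
  rw [← S.cm]
  exact cmono S.mono i (m + 1) hi le_rfl

/-- **window lemma**: chains of rows `0..k` move with the slide -/
theorem Slide.up {L : ℕ} {c : ℕ → ℕ} (S : Slide m n L A c A') {g k s : ℕ}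
    (h : Up m n A (g + 1) k s) : ∃ s', s' + 1 ≤ s ∧ Up m n A' g k s' := by
  induction h with
  | @base s h1 h2 =>
    obtain ⟨h3, j, hj, rfl⟩ := h2
    rcases Nat.lt_or_ge (c 1) j with h4 | h4
    · have := S.p4 0 j h3 hj (Or.inr h4)
      exact ⟨A' 0 j, by omega, Up.base (by omega) ⟨h3, j, hj, rfl⟩⟩
    · have hj0 : j ≠ 0 := by
        rintro rfl
        rw [S.zero] at h1
        omega
      obtain ⟨j, rfl⟩ : ∃ i, j = i + 1 := ⟨j - 1, by omega⟩
      have := S.p1 0 j h3 (by rw [S.c0]; omega) (by rw [Nat.zero_add]; omega)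
      exact ⟨A' 0 j, by omega, Up.base (by omega) ⟨h3, j, by omega, rfl⟩⟩
  | @step k s s' h1 h2 h3 ih =>
    obtain ⟨s'', h4, h5⟩ := ih
    obtain ⟨h6, j, hj, rfl⟩ := h3
    rcases Nat.lt_or_ge j (c (k + 1)) with h7 | h7
    · have := S.p4 (k + 1) j h6 hj (Or.inl h7)
      exact ⟨A' (k + 1) j, by omega, Up.step h5 (by omega) ⟨h6, j, hj, rfl⟩⟩
    rcases Nat.lt_or_ge (c (k + 1 + 1)) j with h8 | h8
    · have := S.p4 (k + 1) j h6 hj (Or.inr h8)
      exact ⟨A' (k + 1) j, by omega, Up.step h5 (by omega) ⟨h6, j, hj, rfl⟩⟩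
    rcases h7.lt_or_eq with h9 | h9
    · obtain ⟨j, rfl⟩ : ∃ i, j = i + 1 := ⟨j - 1, by omega⟩
      have := S.p1 (k + 1) j h6 (by omega) (by omega)
      exact ⟨A' (k + 1) j, by omega, Up.step h5 (by omega) ⟨h6, j, by omega, rfl⟩⟩
    · -- the letter which changes
      obtain ⟨h10, d, hd, hd'⟩ := h5.rw
      have h11 := S.p2 k (by omega)
      rw [h9] at h11
      have h12 : d < j := S.inc'.row_lt h10 hd (by omega)
      have h13 := S.p4 (k + 1) d h6 hd (Or.inl (by omega))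
      have h14 := S.inc.row (k + 1) d j h6 h12 hj
      have h15 := S.inc'.col k (k + 1) d (by omega) h6 hd
      exact ⟨A' (k + 1) d, by omega, Up.step h5 (by omega) ⟨h6, d, hd, rfl⟩⟩

/-- **window lemma**, the other direction, for chains of rows `k..m` -/
theorem Slide.dn {L : ℕ} {c : ℕ → ℕ} (S : Slide m n L A c A') {t k s : ℕ}
    (h : Dn m n A' t k s) (ht : t + 1 < L) : ∃ s', s + 1 ≤ s' ∧ Dn m n A (t + 1) k s' := by
  induction h with
  | @base s h1 h2 =>
    obtain ⟨h3, j, hj, rfl⟩ := h2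
    rcases Nat.lt_or_ge j (c m) with h4 | h4
    · have := S.p4 m j h3 hj (Or.inl h4)
      exact ⟨A m j, by omega, Dn.base (by omega) ⟨h3, j, hj, rfl⟩⟩
    rcases hj.lt_or_eq with h5 | h5
    · have := S.p1 m j h3 h4 (by rw [S.cm]; exact h5)
      exact ⟨A m (j + 1), by omega, Dn.base (by omega) ⟨h3, j + 1, h5, rfl⟩⟩
    · subst h5
      have := S.p3
      omega
  | @step k s s' h1 h2 h3 ih =>
    obtain ⟨s'', h4, h5⟩ := ih
    obtain ⟨h6, j, hj, rfl⟩ := h3
    obtain ⟨h7, d, hd, hd'⟩ := h5.rw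
    rcases Nat.lt_or_ge j (c k) with h8 | h8
    · have := S.p4 k j h6 hj (Or.inl h8)
      exact ⟨A k j, by omega, Dn.step h5 (by omega) ⟨h6, j, hj, rfl⟩⟩
    rcases Nat.lt_or_ge (c (k + 1)) j with h9 | h9
    · have := S.p4 k j h6 hj (Or.inr h9)
      exact ⟨A k j, by omega, Dn.step h5 (by omega) ⟨h6, j, hj, rfl⟩⟩
    rcases h9.lt_or_eq with h10 | h10
    · have := S.p1 k j h6 h8 h10
      exact ⟨A k (j + 1), by omega, Dn.step h5 (by omega)
        ⟨h6, j + 1, by have := S.c_le (k + 1) (by omega); omega, rfl⟩⟩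
    · have h11 := S.p2 k (by omega)
      rw [← h10] at h11
      have h12 : j < d := S.inc.row_lt h7 hj (by omega)
      have h13 := S.f1 k (by omega) (by omega)
      rw [← h10] at h13
      have h14 := S.inc.row_le h6 (show j + 1 ≤ d by omega) hd
      have h15 := S.inc.col k (k + 1) d (by omega) h7 hd
      exact ⟨A k d, by omega, Dn.step h5 (by omega) ⟨h6, d, hd, rfl⟩⟩

theorem Slide.full {L : ℕ} {c : ℕ → ℕ} (S : Slide m n L A c A') {g t : ℕ}
    (h : Full m n A (g + 1) (t + 1)) : Full m n A' g t := by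
  obtain ⟨s, h1, h2⟩ := h
  obtain ⟨s', h3, h4⟩ := S.up h2
  exact ⟨s', by omega, h4⟩

theorem Slide.full' {L : ℕ} {c : ℕ → ℕ} (S : Slide m n L A c A') {g t : ℕ}
    (h : Full m n A' g t) (ht : t + 1 < L) : Full m n A (g + 1) (t + 1) := by
  rw [full_iff_dn] at h ⊢
  obtain ⟨s, h1, h2⟩ := h
  obtain ⟨s', h3, h4⟩ := S.dn h2 ht
  exact ⟨s', by omega, h4⟩

theorem Slide.ge {L : ℕ} {c : ℕ → ℕ} (S : Slide m n L A c A') (hL : ∀ i j, A i j < L)
    (i j : ℕ) (hi : i ≤ m) (hj : j ≤ n) : A i j ≤ A' i j + 1 := by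
  rcases Nat.lt_or_ge j (c i) with h8 | h8
  · exact (S.p4 i j hi hj (Or.inl h8)).ge
  rcases Nat.lt_or_ge (c (i + 1)) j with h9 | h9
  · exact (S.p4 i j hi hj (Or.inr h9)).ge
  rcases h9.lt_or_eq with h10 | h10
  · have h1 := S.p1 i j hi h8 h10
    have h2 := S.inc.row i j (j + 1) hi (by omega)
      (by have := S.c_le (i + 1) (by omega); omega)
    omega
  · rcases hi.lt_or_eq with h11 | h11
    · have h1 := S.p2 i h11
      rw [← h10] at h1
      have h2 := S.inc.col i (i + 1) j (by omega) (by omega) hj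
      omega
    · subst h11
      rw [S.cm] at h10
      subst h10
      rw [S.p3]
      exact (hL _ _).le

/-- the values on the path increase -/
theorem Slide.gt {L : ℕ} {c : ℕ → ℕ} (S : Slide m n L A c A') (hL : ∀ i j, A i j < L)
    (i j : ℕ) (hi : i ≤ m) (h8 : c i ≤ j) (h9 : j ≤ c (i + 1)) : A i j < A' i j + 1 := by
  rcases h9.lt_or_eq with h10 | h10
  · have h1 := S.p1 i j hi h8 h10
    have h2 := S.inc.row i j (j + 1) hi (by omega)
      (by have := S.c_le (i + 1) (by omega); omega)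
    omega
  · rcases hi.lt_or_eq with h11 | h11
    · have h1 := S.p2 i h11
      rw [← h10] at h1
      have h2 := S.inc.col i (i + 1) j (by omega) (by omega)
        (by have := S.c_le (i + 1) (by omega); omega)
      omega
    · subst h11
      rw [S.cm] at h10
      subst h10
      rw [S.p3]
      exact hL _ _

end Pool.Agent.Lib_helper27.TP
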